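import Mathlib
import Pool.Agent.H39D.A

/-!
# The points at which the relations have full rank
-/

set_option autoImplicit false

open MvPolynomial Matrix Filter Set Module
open scoped Topology

noncomputable section

namespace Pool.Agent.H39M

open Pool.Agent.Y119.CB Pool.Agent.Y776 Pool.Agent.H39D

variable {n : ℕ} {σ : Type} [Fintype σ]

omit [Fintype σ] in
/-- near a point with full rank there are no other common zeros -/
theorem countable_loc {k : Type} [Field k] [Algebra k ℂ] {r : ℕ} {P : Fin n → σ → MvPolynomial σ k}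
    {Φ : (Fin n → ℂ) → σ → ℂ} {U : Set (Fin n → ℂ)} {F : Fin r → MvPolynomial σ k}
    {J : Fin r → Fin n} (hU : IsOpen U) (h : HypF P Φ U) {a : Fin n → ℂ} (ha : a ∈ U)
    (hdet : aeval (Φ a) (hh P F J) ≠ 0) (hr : n ≤ r) :
    ∃ O ∈ 𝓝 a, {b ∈ O | ∀ i, aeval (Φ b) (F i) = 0}.Countable := by
  have hJ := J_inj F J hdet
  have hst : HasStrictFDerivAt (Ps F J Φ)
      (eqv F J hdet : (Fin n → ℂ) →L[ℂ] (Fin n → ℂ)) a := by
    rw [eqv_coe]
    exact strict_Ps F J hU h ha
  have hinv := hst.eventually_left_inverse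
  have hsurj : Function.Surjective J := by
    have h1 := Fintype.card_le_of_injective J hJ
    simp only [Fintype.card_fin] at h1
    obtain rfl : r = n := le_antisymm h1 hr
    exact Finite.surjective_of_injective hJ
  refine ⟨{b | hst.localInverse (Ps F J Φ) (eqv F J hdet) a (Ps F J Φ b) = b}, hinv,
    (Set.countable_singleton (hst.localInverse (Ps F J Φ) (eqv F J hdet) a 0)).mono ?_⟩
  rintro b ⟨hb2, hb3⟩
  have h0 : Ps F J Φ b = 0 := by
    funext j
    obtain ⟨i, rfl⟩ := hsurj j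
    rw [Ps_J F J hJ]
    exact hb3 i
  rw [Set.mem_singleton_iff]
  rw [Set.mem_ofPred_eq, h0] at hb2
  exact hb2.symm

/-- **The points at which the rank of the relations is full** -/
theorem countable_rank (P : Fin n → σ → MvPolynomial σ ℚ) {K : Subfield ℂ}
    (hk : (K : Set ℂ).Countable) {U : Set (Fin n → ℂ)} (hU : IsOpen U)
    {Φ : (Fin n → ℂ) → σ → ℂ}
    (hΦ : ∀ x ∈ U, ∀ s, HasFDerivAt (fun y => Φ y s) (∑ j, (aeval (Φ x) (P j s)) •
      (ContinuousLinearMap.proj j : (Fin n → ℂ) →L[ℂ] ℂ)) x) :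
    {a | a ∈ U ∧ n ≤ finrank ℂ (Submodule.span ℂ (Grad P K (Φ a)))}.Countable := by
  classical
  have hkc : Countable K := hk.to_subtype
  have hRc : Countable (MvPolynomial σ K) := by
    rw [← Cardinal.mk_le_aleph0_iff]
    refine MvPolynomial.cardinalMk_le_max.trans ?_
    exact max_le (max_le (Cardinal.mk_le_aleph0_iff.2 hkc)
      (Cardinal.mk_le_aleph0_iff.2 inferInstance)) le_rfl
  have hH : HypF (Pk P K) Φ U := by
    intro x hx s
    have h1 : (∑ j, (aeval (Φ x) (Pk P K j s)) •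
        (ContinuousLinearMap.proj j : (Fin n → ℂ) →L[ℂ] ℂ)) = ∑ j, (aeval (Φ x) (P j s)) •
        (ContinuousLinearMap.proj j : (Fin n → ℂ) →L[ℂ] ℂ) :=
      Finset.sum_congr rfl (fun j _ => by rw [aeval_Pk])
    rw [h1]
    exact hΦ x hx s
  let B : (Σ r : ℕ, (Fin r → MvPolynomial σ K) × (Fin r → Fin n)) → Set (Fin n → ℂ) :=
    fun d => {a | n ≤ d.1 ∧ a ∈ U ∧ aeval (Φ a) (hh (Pk P K) d.2.1 d.2.2) ≠ 0 ∧
      (∀ i, aeval (Φ a) (d.2.1 i) = 0)}
  have hB : ∀ d, (B d).Countable := by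
    intro d
    have h1 : ∀ a ∈ B d, ∃ O ∈ 𝓝 a, {b ∈ O | ∀ i, aeval (Φ b) (d.2.1 i) = 0}.Countable := by
      rintro a ⟨h0, h2, h3, h4⟩
      exact countable_loc hU hH h2 h3 h0
    choose! O hO hO' using h1
    obtain ⟨t, hts, htc, ht⟩ := TopologicalSpace.countable_cover_nhdsWithin
      (f := O) (s := B d) fun x hx => mem_nhdsWithin_of_mem_nhds (hO x hx)
    refine (htc.biUnion (fun x hx => hO' x (hts hx))).mono ?_
    intro b hb
    obtain ⟨x, hx, hbx⟩ := mem_iUnion₂.1 (ht hb)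
    exact mem_iUnion₂.2 ⟨x, hx, hbx, hb.2.2.2⟩
  refine (Set.countable_iUnion hB).mono ?_
  rintro a ⟨ha, hn⟩
  obtain ⟨f, hf1, hf2, hf3⟩ := Submodule.exists_fun_fin_finrank_span_eq ℂ (Grad P K (Φ a))
  choose F hF1 hF2 using hf1
  obtain ⟨J, hJ⟩ := exists_minor f hf3
  have hf : f = fun i => gr (Pk P K) (Φ a) (F i) := funext fun i => by
    rw [hF2 i, gr_eq]
  refine mem_iUnion.2 ⟨⟨_, F, J⟩, hn, ha, ?_, hF1⟩
  change aeval (Φ a) (AJ (Pk P K) F J).det ≠ 0
  have h1 : aeval (Φ a) (AJ (Pk P K) F J).det =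
      (Matrix.of fun i i' => f i (J i')).det := by
    have h2 := RingHom.map_det (aeval (Φ a) : MvPolynomial σ K →ₐ[K] ℂ).toRingHom
      (AJ (Pk P K) F J)
    refine h2.trans ?_
    congr 1
    ext i i'
    rw [hf]
    rfl
  rw [h1]
  exact hJ

end Pool.Agent.H39M
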