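import Mathlib
import Pool.Agent.H39M.A
import Pool.Agent.H39D.C2
import Pool.Agent.Y776.AxJ.JFun

/-!
# Several values of the modular function: the gradients of all relations
-/

set_option autoImplicit false

open Filter Finset Module MvPolynomial
open scoped Topology

noncomputable section

namespace Pool.Agent.H39M

open Pool.Agent.W245.EB Pool.Agent.Y685 Pool.Agent.TH813.Ell Pool.Agent.Y776 Pool.Agent.Y776.AxJ
open Pool.Agent.TH813.Rel (DF MK exists_derF)
open Pool.Agent.H39D (exists_perp)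

variable {n : ℕ}

/-- the names of the functions: the constant, and `τ`, `h`, `g₂`, `g₃` for each coordinate -/
abbrev Nm (n : ℕ) : Type := Option (Fin n × Fin 4)

/-- the functions -/
def Phi (x : Fin n → ℂ) : Nm n → ℂ := fun o => o.elim be0 (fun p => yy (x p.1) p.2)

/-- the derivatives of the four functions of one coordinate -/
def d4 (i : Fin n) : Fin 4 → MvPolynomial (Nm n) ℚ :=
  ![1, X none * X (some (i, 1)) ^ 2 - X none * X (some (i, 2)) * C (1 / 12),
    4 * X none * X (some (i, 1)) * X (some (i, 2)) - 6 * X none * X (some (i, 3)),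
    6 * X none * X (some (i, 1)) * X (some (i, 3)) - X none * X (some (i, 2)) ^ 2 * C (1 / 3)]

/-- the derivatives -/
def PJ (j : Fin n) : Nm n → MvPolynomial (Nm n) ℚ :=
  fun o => o.elim 0 (fun p => if p.1 = j then d4 p.1 p.2 else 0)

/-- the values of the derivatives -/
def v4 (τ : ℂ) : Fin 4 → ℂ :=
  ![1, be0 * h1 τ ^ 2 - be0 * (LC τ).g₂ / 12, 4 * be0 * h1 τ * (LC τ).g₂ - 6 * be0 * (LC τ).g₃,
    6 * be0 * h1 τ * (LC τ).g₃ - be0 * (LC τ).g₂ ^ 2 / 3]

theorem aeval_d4 (x : Fin n → ℂ) (i : Fin n) (k : Fin 4) : aeval (Phi x) (d4 i k) = v4 (x i) k := by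
  have e1 : yy (x i) 1 = h1 (x i) := rfl
  have e2 : yy (x i) 2 = (LC (x i)).g₂ := rfl
  have e3 : yy (x i) 3 = (LC (x i)).g₃ := rfl
  fin_cases k
  · simp [d4, v4]
  · simp [d4, v4, Phi, e1, e2]
    ring
  · simp [d4, v4, Phi, e1, e2, e3, map_ofNat]
  · simp [d4, v4, Phi, e1, e2, e3, map_ofNat]
    ring

theorem der_yy {τ : ℂ} (hτ : 0 < τ.im) (k : Fin 4) : HasDerivAt (fun s => yy s k) (v4 τ k) τ := by
  fin_cases k
  · exact hasDerivAt_id τ
  · exact der_h hτ
  · exact der_p hτ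
  · exact der_q hτ

/-- the domain -/
def HU (n : ℕ) : Set (Fin n → ℂ) := {x | ∀ i, 0 < (x i).im}

theorem isOpen_HU : IsOpen (HU n) := by
  have h1 : HU n = ⋂ i : Fin n, (fun x : Fin n → ℂ => x i) ⁻¹' {τ | 0 < τ.im} := by
    ext x
    simp [HU]
  rw [h1]
  exact isOpen_iInter_of_finite (fun i => isOpen_H.preimage (continuous_apply i))

theorem Phi_der {x : Fin n → ℂ} (hx : x ∈ HU n) (s₀ : Nm n) :
    HasFDerivAt (fun y => Phi y s₀) (∑ j, (aeval (Phi x) (PJ j s₀)) •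
      (ContinuousLinearMap.proj j : (Fin n → ℂ) →L[ℂ] ℂ)) x := by
  classical
  rcases s₀ with _ | ⟨i, k⟩
  · have h0 : (∑ j, (aeval (Phi x) (PJ j none)) •
      (ContinuousLinearMap.proj j : (Fin n → ℂ) →L[ℂ] ℂ)) = 0 := by
      refine sum_eq_zero (fun j _ => ?_)
      exact ContinuousLinearMap.ext (fun v => by simp [PJ])
    rw [h0]
    exact hasFDerivAt_const _ _
  · have h0 : (∑ j, (aeval (Phi x) (PJ j (some (i, k)))) •
      (ContinuousLinearMap.proj j : (Fin n → ℂ) →L[ℂ] ℂ)) =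
        v4 (x i) k • (ContinuousLinearMap.proj i : (Fin n → ℂ) →L[ℂ] ℂ) := by
      rw [Finset.sum_eq_single i]
      · simp only [PJ, Option.elim_some, if_true, aeval_d4]
      · intro j _ hj
        have : ¬ i = j := fun h => hj h.symm
        exact ContinuousLinearMap.ext (fun v => by simp [PJ, this])
      · intro h; exact absurd (mem_univ i) h
    rw [h0]
    exact hasFDerivAt_coord (f := fun s => yy s k) i (der_yy (hx i) k)

/-- a vector which is orthogonal to the gradients of the relations gives a derivation -/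
theorem vec_J {K : Subfield ℂ} {z v : Fin n → ℂ}
    (h : ∀ g ∈ Grad PJ K (Phi z), ∑ j, v j * g j = 0) :
    ∃ D : Derivation ℚ ℂ ℂ, (∀ c ∈ K, D c = 0) ∧ ∀ i k, D (yy (z i) k) = v i * v4 (z i) k := by
  classical
  obtain ⟨D', hD'⟩ := Pool.Agent.Y119.CB.exists_derivation (k := K) (Phi z)
    (fun s₁ => ∑ j, v j * aeval (Phi z) (PJ j s₁)) (by
      intro H hH
      have h1 := h _ ⟨H, hH, rfl⟩
      rw [← h1]
      simp only [grC, Finset.mul_sum]
      rw [Finset.sum_comm]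
      exact Finset.sum_congr rfl fun j _ => Finset.sum_congr rfl fun s _ => by ring)
  set D : Derivation ℚ ℂ ℂ := D'.restrictScalars ℚ with hDdef
  refine ⟨D, fun c hc => D'.map_algebraMap ⟨c, hc⟩, fun i k => ?_⟩
  have h1 : D (Phi z (some (i, k))) = ∑ j, v j * aeval (Phi z) (PJ j (some (i, k))) :=
    hD' (some (i, k))
  have h2 : Phi z (some (i, k)) = yy (z i) k := rfl
  rw [h2] at h1
  rw [h1, Finset.sum_eq_single i]
  · simp only [PJ, Option.elim_some, if_true, aeval_d4]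
  · intro j _ hj
    have : ¬ i = j := fun h => hj h.symm
    simp [PJ, this]
  · intro h; exact absurd (mem_univ i) h

/-- a derivation with the right values is compatible -/
theorem Th_zero {τ : ℂ} (hok : (QL τ).Ok) {D : Derivation ℚ ℂ ℂ}
    (h : ∀ k, D (yy τ k) = v4 τ k) : Th be0 (QL τ) D = 0 ∧ D (gg (QL τ)) ≠ 0 := by
  have hb := be0_ne
  have hd : (LC τ).g₂ ^ 3 - 27 * (LC τ).g₃ ^ 2 ≠ 0 := hok.dl
  have hp : (LC τ).g₂ ≠ 0 := hok.p0
  have hq : (LC τ).g₃ ≠ 0 := hok.q0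
  have e0 : D (QL τ).t = 1 := h 0
  have e1 : D (QL τ).h = be0 * h1 τ ^ 2 - be0 * (LC τ).g₂ / 12 := h 1
  have e2 : D (QL τ).p = 4 * be0 * h1 τ * (LC τ).g₂ - 6 * be0 * (LC τ).g₃ := h 2
  have e3 : D (QL τ).q = 6 * be0 * h1 τ * (LC τ).g₃ - be0 * (LC τ).g₂ ^ 2 / 3 := h 3
  have q1 : (QL τ).h = h1 τ := rfl
  have q2 : (QL τ).p = (LC τ).g₂ := rfl
  have q3 : (QL τ).q = (LC τ).g₃ := rfl
  have q4 : (QL τ).dl = (LC τ).g₂ ^ 3 - 27 * (LC τ).g₃ ^ 2 := rfl
  have hfa : fa (QL τ) D = -(be0 * h1 τ) := by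
    rw [fa, e2, e3, q2, q3, q4, div_eq_iff (mul_ne_zero (by norm_num : (4 : ℂ) ≠ 0) hd)]
    ring
  have hfb : fb (QL τ) D = be0 := by
    rw [fb, e2, e3, q2, q3, q4, div_eq_iff (mul_ne_zero (two_ne_zero : (2 : ℂ) ≠ 0) hd)]
    ring
  have hfu : fu be0 (QL τ) D = 0 := by
    rw [fu, hfa, hfb, e1, q1, q2]
    ring
  have hfv : fv (QL τ) D = 0 := by
    rw [fv, hfa, hfb, q1]
    ring
  have hfs : fs be0 (QL τ) D = 0 := by
    rw [fs, hfb, e0, div_self hb, sub_self]
  constructor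
  · apply ext3
    · rw [Th0, hfu]; rfl
    · rw [Th1, hfu, hfv]; simp
    · rw [Th2, hfu, hfv, hfs]; simp
  · have hgg : D (gg (QL τ)) = 2 / 3 * be0 * (LC τ).g₂ ^ 2 *
        ((LC τ).g₂ ^ 3 - 27 * (LC τ).g₃ ^ 2) / (LC τ).g₃ ^ 3 := by
      rw [gg, ddiv D _ (pow_ne_zero 2 (by rw [q3]; exact hq)), Derivation.leibniz_pow,
        Derivation.leibniz_pow, e2, e3, q2, q3]
      simp only [smul_eq_mul, nsmul_eq_mul]
      push_cast
      field_simp
      ring
    rw [hgg]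
    exact div_ne_zero (mul_ne_zero (mul_ne_zero (mul_ne_zero (by norm_num) hb) (pow_ne_zero 2 hp)) hd)
      (pow_ne_zero 3 hq)

end Pool.Agent.H39M
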