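import Mathlib
import Pool.Agent.H39M.B
import Pool.Agent.Y776.AxJ.FreeLC

/-!
# The rank of several values of the modular function
-/

set_option autoImplicit false

open Filter Finset Module MvPolynomial
open scoped Topology

noncomputable section

namespace Pool.Agent.H39M

open Pool.Agent.W245.EB Pool.Agent.Y685 Pool.Agent.TH813.Ell Pool.Agent.Y776 Pool.Agent.Y776.AxJ
open Pool.Agent.TH813.Rel (DF MK exists_derF)
open Pool.Agent.H39D (exists_perp)

variable {n : ℕ}

/-- coordinates of a subspace -/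
theorem exists_coord (V : Submodule ℂ (Fin n → ℂ)) : ∃ (m : ℕ) (a : Fin m → Fin n)
    (w : Fin m → Fin n → ℂ), m = finrank ℂ V ∧ (∀ l, w l ∈ V) ∧
      ∀ l l', w l (a l') = if l = l' then 1 else 0 := by
  classical
  let f : Fin n → Dual ℂ V := fun i => (LinearMap.proj i : (Fin n → ℂ) →ₗ[ℂ] ℂ) ∘ₗ V.subtype
  obtain ⟨m, g, hg1, hg2, hmm⟩ : ∃ (m : ℕ) (g : Fin m → Dual ℂ V), (∀ i, g i ∈ Set.range f) ∧
      Submodule.span ℂ (Set.range g) = Submodule.span ℂ (Set.range f) ∧
      m = finrank ℂ (Submodule.span ℂ (Set.range f)) := by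
    obtain ⟨g, h1, h2, -⟩ := Submodule.exists_fun_fin_finrank_span_eq ℂ (Set.range f)
    exact ⟨_, g, h1, h2, rfl⟩
  choose a ha using hg1
  let T : V →ₗ[ℂ] (Fin m → ℂ) := LinearMap.pi g
  have hinj : Function.Injective T := by
    rw [← LinearMap.ker_eq_bot, LinearMap.ker_eq_bot']
    intro v hv
    have h1 : ∀ φ ∈ Submodule.span ℂ (Set.range f), φ v = 0 := by
      intro φ hφ
      rw [← hg2] at hφ
      refine Submodule.span_induction (p := fun φ _ => φ v = 0) ?_ rfl ?_ ?_ hφ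
      · rintro _ ⟨l, rfl⟩
        exact congrFun hv l
      · intro φ ψ _ _ h1 h2
        rw [LinearMap.add_apply, h1, h2, add_zero]
      · intro c φ _ h1
        rw [LinearMap.smul_apply, h1, smul_zero]
    apply Subtype.ext
    funext i
    exact h1 (f i) (Submodule.subset_span ⟨i, rfl⟩)
  have hle1 : finrank ℂ V ≤ m := by
    have := LinearMap.finrank_le_finrank_of_injective hinj
    rwa [finrank_fintype_fun_eq_card, Fintype.card_fin] at this
  have hle2 : m ≤ finrank ℂ V := by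
    have := (Submodule.span ℂ (Set.range f)).finrank_le
    rwa [Subspace.dual_finrank_eq, ← hmm] at this
  have heq : m = finrank ℂ V := le_antisymm hle2 hle1
  have hsurj : Function.Surjective T := by
    refine (LinearMap.injective_iff_surjective_of_finrank_eq_finrank ?_).1 hinj
    rw [finrank_fintype_fun_eq_card, Fintype.card_fin, ← heq]
  choose w hw using fun l => hsurj (Pi.single l 1)
  refine ⟨m, a, fun l => (w l : Fin n → ℂ), heq, fun l => (w l).2, fun l l' => ?_⟩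
  have h1 := congrFun (hw l) l'
  have h2 : T (w l) l' = g l' (w l) := rfl
  rw [h2, ← ha l'] at h1
  change (w l : Fin n → ℂ) (a l') = _ at h1
  change (w l : Fin n → ℂ) (a l') = _
  rw [h1, Pi.single_apply]
  by_cases h : l = l'
  · rw [if_pos h, if_pos h.symm]
  · rw [if_neg h, if_neg (fun h' => h h'.symm)]

/-- the numbers `z`, `j(z)`, `j'(z)`, `j''(z)` of all coordinates -/
def JN (z : Fin n → ℂ) : Set ℂ :=
  Set.range z ∪ (Set.range (fun i => jf (z i)) ∪ (Set.range (fun i => deriv jf (z i)) ∪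
    Set.range (fun i => deriv (deriv jf) (z i))))

theorem JN_finite (z : Fin n → ℂ) : (JN z).Finite :=
  (Set.finite_range _).union ((Set.finite_range _).union ((Set.finite_range _).union
    (Set.finite_range _)))

/-- **The rank and the gradients of the relations** -/
theorem rank_J {K : Subfield ℂ} (hb : be0 ∈ K) (hT : T0 ⊆ K) {z : Fin n → ℂ} (hz : z ∈ HU n) :
    ((4 * n : ℕ) : ℕ∞) ≤ (MK (IFd K)).eRk (JN z) +
      ((4 * finrank ℂ (Submodule.span ℂ (Grad PJ K (Phi z))) : ℕ) : ℕ∞) := by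
  classical
  have hfin := JN_finite z
  set S := JN z with hS
  have : Fintype S := hfin.fintype
  rw [← rank_evS hfin]
  obtain ⟨V, hV1, hV2⟩ := exists_perp (Submodule.span ℂ (Grad PJ K (Phi z)))
  obtain ⟨m, a, w, hm, hwV, hw⟩ := exists_coord V
  choose D hDK hD using fun l => vec_J (K := K) (z := z) (v := w l)
    (fun g hg => hV1 (w l) (hwV l) g (Submodule.subset_span hg))
  have hDl : ∀ l k, D l (yy (z (a l)) k) = v4 (z (a l)) k := fun l k => by
    rw [hD, hw, if_pos rfl, one_mul]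
  have hDl' : ∀ l l', l ≠ l' → ∀ k, D l (yy (z (a l')) k) = 0 := fun l l' hl k => by
    rw [hD, hw, if_neg hl, zero_mul]
  have hzK : ∀ l, z (a l) ∉ K := by
    intro l hl
    have h1 := hDl l 0
    have h2 : D l (yy (z (a l)) 0) = 0 := hDK l _ hl
    rw [h2] at h1
    exact zero_ne_one h1
  have hzT : ∀ l, z (a l) ∉ T0 := fun l h => hzK l (hT h)
  have hok : ∀ l, (QL (z (a l))).Ok := fun l => QL_ok (T0_spec.2 _ (hz _) (hzT l))
  have hmove : ∀ (l : Fin m) (v : Fin 4 → ℂ), ∃ δ ∈ DF (Cst (D l)), ∀ k, δ (yy (z (a l)) k) = v k := by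
    intro l v
    obtain ⟨h1, h2⟩ := Th_zero (hok l) (hDl l)
    obtain ⟨δ, hδ, e0, e1, e2, e3⟩ := free_LC (hz _) (hzT l) (D l) (hDK l _ hb) h1 h2 v
    refine ⟨δ, hδ, fun k => ?_⟩
    fin_cases k
    · exact e0
    · exact e1
    · exact e2
    · exact e3
  let p : DF (IFd K) →ₗ[ℂ] (Fin m × Fin 4 → ℂ) :=
    { toFun := fun δ q => (δ : Derivation ℚ ℂ ℂ) (yy (z (a q.1)) q.2)
      map_add' := fun δ δ' => rfl
      map_smul' := fun c δ => rfl }
  have hp : LinearMap.range p = ⊤ := by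
    rw [LinearMap.range_eq_top]
    intro u
    choose δ hδ hδv using fun l => hmove l (fun k => u (l, k))
    have hδK : ∀ l, δ l ∈ DF (IFd K) := fun l x hx => hδ l x (hDK l x hx)
    refine ⟨∑ l, (⟨δ l, hδK l⟩ : DF (IFd K)), ?_⟩
    funext q
    rw [map_sum, Finset.sum_apply, Finset.sum_eq_single q.1]
    · exact hδv q.1 q.2
    · intro l _ hl
      exact hδ l _ (hDl' l q.1 hl q.2)
    · intro h; exact absurd (mem_univ _) h
  have hker : LinearMap.ker (evS (IFd K) S) ≤ LinearMap.ker p := by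
    intro δ hδ
    have hδ0 : ∀ x ∈ S, (δ : Derivation ℚ ℂ ℂ) x = 0 := fun x hx => congrFun hδ ⟨x, hx⟩
    rw [LinearMap.mem_ker]
    funext q
    change (δ : Derivation ℚ ℂ ℂ) (yy (z (a q.1)) q.2) = 0
    obtain ⟨m1, m2, m3⟩ := mem_of_j (hz (a q.1)) (hok q.1) (K := Cst (δ : Derivation ℚ ℂ ℂ))
      (δ.2 _ hb) (hδ0 _ (Or.inr (Or.inl ⟨a q.1, rfl⟩)))
      (hδ0 _ (Or.inr (Or.inr (Or.inl ⟨a q.1, rfl⟩)))) (hδ0 _ (Or.inr (Or.inr (Or.inr ⟨a q.1, rfl⟩))))
    obtain ⟨l, k⟩ := q
    fin_cases k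
    · exact hδ0 _ (Or.inl ⟨a l, rfl⟩)
    · exact m1
    · exact m2
    · exact m3
  have h1 : finrank ℂ (LinearMap.range p) ≤ finrank ℂ (LinearMap.range (evS (IFd K) S)) := by
    let u : LinearMap.range (evS (IFd K) S) →ₗ[ℂ] (Fin m × Fin 4 → ℂ) :=
      ((LinearMap.ker (evS (IFd K) S)).liftQ p hker) ∘ₗ
        ((evS (IFd K) S).quotKerEquivRange.symm : LinearMap.range (evS (IFd K) S) →ₗ[ℂ] _)
    have h3 : LinearMap.range p ≤ LinearMap.range u := by
      rintro _ ⟨D, rfl⟩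
      refine ⟨(evS (IFd K) S).quotKerEquivRange (Submodule.Quotient.mk D), ?_⟩
      change ((LinearMap.ker (evS (IFd K) S)).liftQ p hker) ((evS (IFd K) S).quotKerEquivRange.symm
        ((evS (IFd K) S).quotKerEquivRange (Submodule.Quotient.mk D))) = p D
      rw [LinearEquiv.symm_apply_apply]
      exact Submodule.liftQ_apply _ _ _
    exact (Submodule.finrank_mono h3).trans (LinearMap.finrank_range_le u)
  rw [hp, finrank_top, finrank_fintype_fun_eq_card, Fintype.card_prod, Fintype.card_fin,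
    Fintype.card_fin] at h1
  have h2 : 4 * n ≤ finrank ℂ (LinearMap.range (evS (IFd K) S)) +
      4 * finrank ℂ (Submodule.span ℂ (Grad PJ K (Phi z))) := by
    rw [← hm] at hV2
    omega
  exact_mod_cast h2

/-- **The dimension of the set of the points with small transcendence degree** -/
theorem dim_J {F : IntermediateField ℚ ℂ} (hF : (F : Set ℂ).Countable) (n d : ℕ) :
    dimH {z : Fin n → ℂ | z ∈ HU n ∧ (MK F).eRk (JN z) < (d : ℕ∞)} ≤
      ((2 * ((d - 1) / 4) : ℕ) : ENNReal) ∧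
    (d ≤ 4 → {z : Fin n → ℂ | z ∈ HU n ∧ (MK F).eRk (JN z) < (d : ℕ∞)}.Countable) := by
  classical
  obtain ⟨K, hK⟩ : ∃ K : Subfield ℂ, K = Subfield.closure ((F : Set ℂ) ∪ ({be0} ∪ T0)) := ⟨_, rfl⟩
  have hsub : (F : Set ℂ) ∪ ({be0} ∪ T0) ⊆ K := hK ▸ Subfield.subset_closure
  have hKc : (K : Set ℂ).Countable := by
    rw [hK]
    exact countable_closure (hF.union ((Set.countable_singleton _).union T0_spec.1))
  have hb : be0 ∈ K := hsub (Or.inr (Or.inl rfl))
  have hT : T0 ⊆ K := fun x hx => hsub (Or.inr (Or.inr hx))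
  have hFK : F ≤ IFd K := fun x hx => hsub (Or.inl hx)
  have key : ∀ z : Fin n → ℂ, z ∈ HU n → (MK F).eRk (JN z) < (d : ℕ∞) →
      n ≤ finrank ℂ (Submodule.span ℂ (Grad PJ K (Phi z))) + (d - 1) / 4 := by
    intro z hz hr
    have h1 := rank_J hb hT hz
    have h2 := (rank_mono_base hFK (JN_finite z)).trans_lt hr
    obtain ⟨r, hr'⟩ := ENat.ne_top_iff_exists.1 (ne_top_of_lt h2)
    rw [← hr'] at h1 h2
    have h3 : r < d := by exact_mod_cast h2
    have h4 : 4 * n ≤ r + 4 * finrank ℂ (Submodule.span ℂ (Grad PJ K (Phi z))) := by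
      exact_mod_cast h1
    omega
  constructor
  · refine (dimH_mono ?_).trans (Pool.Agent.H39D.dimH_rank PJ hKc isOpen_HU
      (fun x hx s₀ => Phi_der hx s₀) ((d - 1) / 4))
    rintro z ⟨hz, hr⟩
    exact ⟨hz, key z hz hr⟩
  · intro hd
    refine (countable_rank PJ hKc isOpen_HU (fun x hx s₀ => Phi_der hx s₀)).mono ?_
    rintro z ⟨hz, hr⟩
    refine ⟨hz, ?_⟩
    have h1 := key z hz hr
    omega

end Pool.Agent.H39M
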