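import Mathlib
import Pool.Agent.TH21.MS.JFun
import Pool.Agent.Y776.AxJ.JFun

/-!
# The modular function by Eisenstein series
-/

set_option autoImplicit false

open Filter Topology UpperHalfPlane ModularForm EisensteinSeries

noncomputable section

namespace Pool.Agent.H39M

open Pool.Agent.Y685 (LL LC)
open Pool.Agent.Y776 (jf)
open Pool.Agent.Y776.AxJ (dlf dlf_ne)
open Pool.Agent.TH21.MS (E4 E6 E4_eq E6_eq)

theorem G_eq {k : ℕ} (hk : 3 ≤ k) (z : ℍ) : (LL z).G k = ∑' v, eisSummand k v z := by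
  have h0 : (LL z).G k = ∑' x : ℤ × ℤ, ((((LL z).latticeEquivProd.symm x : (LL z).lattice) : ℂ) ^ k)⁻¹ := by
    unfold PeriodPair.G
    exact ((LL z).latticeEquivProd.symm.toEquiv.tsum_eq (fun l : (LL z).lattice => ((l : ℂ) ^ k)⁻¹)).symm
  rw [h0, ← ((finTwoArrowEquiv ℤ).trans (Equiv.prodComm ℤ ℤ)).tsum_eq]
  refine tsum_congr fun v => ?_
  have h1 : ((finTwoArrowEquiv ℤ).trans (Equiv.prodComm ℤ ℤ)) v = (v 1, v 0) := rfl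
  rw [PeriodPair.latticeEquiv_symm_apply, eisSummand, h1, Pool.Agent.Y685.LL_ω₁, Pool.Agent.Y685.LL_ω₂, mul_one,
    zpow_neg, zpow_natCast, add_comm]

theorem G_E {k : ℕ} (hk : 3 ≤ k) (z : ℍ) : (LL z).G k = 2 * riemannZeta k * E hk z := by
  rw [G_eq hk, tsum_eisSummand_eq_riemannZeta_mul_eisensteinSeries hk z,
    show E hk z = (1 / 2 : ℂ) • eisensteinSeriesSIF (N := 1) 0 k z from rfl, eisensteinSeriesSIF_apply 0 k z]
  simp only [smul_eq_mul]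
  ring

theorem zeta_six : riemannZeta 6 = (Real.pi : ℂ) ^ 6 / 945 := by
  have h := riemannZeta_two_mul_nat (k := 3) (by norm_num)
  have h1 : (2 * ((3 : ℕ) : ℂ)) = 6 := by norm_num
  rw [h1, show 2 * 3 = 6 by norm_num, show bernoulli 6 = 1 / 42 by decide +kernel] at h
  rw [h]
  norm_num [Nat.factorial]
  ring

theorem g2_eq {τ : ℂ} (hτ : 0 < τ.im) : (LC τ).g₂ = 4 * (Real.pi : ℂ) ^ 4 / 3 * E4 τ := by
  have h1 : LC τ = LL ⟨τ, hτ⟩ := Pool.Agent.Y685.LC_coe ⟨τ, hτ⟩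
  have h2 := E4_eq ⟨τ, hτ⟩
  have h3 : ((⟨τ, hτ⟩ : ℍ) : ℂ) = τ := rfl
  rw [h3] at h2
  rw [h1, PeriodPair.g₂, G_E (k := 4) (by norm_num), h2]
  have h4 : riemannZeta ((4 : ℕ) : ℂ) = (Real.pi : ℂ) ^ 4 / 90 := by
    push_cast
    exact riemannZeta_four
  rw [h4, show (E₄ (⟨τ, hτ⟩ : ℍ) : ℂ) = E (k := 4) (by norm_num) ⟨τ, hτ⟩ from rfl]
  ring

theorem g3_eq {τ : ℂ} (hτ : 0 < τ.im) : (LC τ).g₃ = 8 * (Real.pi : ℂ) ^ 6 / 27 * E6 τ := by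
  have h1 : LC τ = LL ⟨τ, hτ⟩ := Pool.Agent.Y685.LC_coe ⟨τ, hτ⟩
  have h2 := E6_eq ⟨τ, hτ⟩
  have h3 : ((⟨τ, hτ⟩ : ℍ) : ℂ) = τ := rfl
  rw [h3] at h2
  rw [h1, PeriodPair.g₃, G_E (k := 6) (by norm_num), h2]
  have h4 : riemannZeta ((6 : ℕ) : ℂ) = (Real.pi : ℂ) ^ 6 / 945 := by
    push_cast
    exact zeta_six
  rw [h4, show (E₆ (⟨τ, hτ⟩ : ℍ) : ℂ) = E (k := 6) (by norm_num) ⟨τ, hτ⟩ from rfl]
  ring

theorem jf_jj {τ : ℂ} (hτ : 0 < τ.im) : jf τ = Pool.Agent.TH21.MS.jj τ := by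
  have h1 : jf τ = 1728 * (LC τ).g₂ ^ 3 / dlf τ := rfl
  have h4 := dlf_ne hτ
  rw [h1, Pool.Agent.TH21.MS.jj]
  have h5 : dlf τ = 64 / 27 * (Real.pi : ℂ) ^ 12 * (E4 τ ^ 3 - E6 τ ^ 2) := by
    rw [dlf, g2_eq hτ, g3_eq hτ]
    ring
  have h6 : E4 τ ^ 3 - E6 τ ^ 2 ≠ 0 := by
    intro h0
    rw [h5, h0, mul_zero] at h4
    exact h4 rfl
  have h7 : (Real.pi : ℂ) ≠ 0 := by exact_mod_cast Real.pi_ne_zero
  rw [h5, g2_eq hτ]
  field_simp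
  ring

theorem isOpen_H : IsOpen {τ : ℂ | 0 < τ.im} := isOpen_lt continuous_const Complex.continuous_im

theorem jf_nhds {τ : ℂ} (hτ : 0 < τ.im) : jf =ᶠ[𝓝 τ] Pool.Agent.TH21.MS.jj := by
  filter_upwards [isOpen_H.mem_nhds hτ] with z hz
  exact jf_jj hz

theorem deriv_jf {τ : ℂ} (hτ : 0 < τ.im) : deriv jf τ = deriv Pool.Agent.TH21.MS.jj τ :=
  (jf_nhds hτ).deriv_eq

theorem deriv2_jf {τ : ℂ} (hτ : 0 < τ.im) :
    deriv (deriv jf) τ = deriv (deriv Pool.Agent.TH21.MS.jj) τ := by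
  refine Filter.EventuallyEq.deriv_eq ?_
  filter_upwards [isOpen_H.mem_nhds hτ] with z hz
  exact deriv_jf hz

end Pool.Agent.H39M
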