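import Mathlib
import Pool.Agent.H39M.C
import Pool.Agent.H39M.J

/-!
# The exact dimension
-/

set_option autoImplicit false

open Filter Finset Module
open scoped Topology

noncomputable section

namespace Pool.Agent.H39M

open Pool.Agent.TH813.Rel (DF MK)
open Pool.Agent.Y776 (jf)
open Pool.Agent.TH21.MS (jj)

variable {n : ℕ}

/-- the numbers `z i`, `j (z i)`, `j' (z i)`, `j'' (z i)`, `j` by Eisenstein series -/
def JE (z : Fin n → ℂ) : Set ℂ :=
  {w | ∃ i, w = z i ∨ w = jj (z i) ∨ w = deriv jj (z i) ∨ w = deriv (deriv jj) (z i)}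

theorem JE_eq {z : Fin n → ℂ} (hz : z ∈ HU n) : JE z = JN z := by
  ext w
  constructor
  · rintro ⟨i, rfl | rfl | rfl | rfl⟩
    · exact Or.inl ⟨i, rfl⟩
    · exact Or.inr (Or.inl ⟨i, jf_jj (hz i)⟩)
    · exact Or.inr (Or.inr (Or.inl ⟨i, deriv_jf (hz i)⟩))
    · exact Or.inr (Or.inr (Or.inr ⟨i, deriv2_jf (hz i)⟩))
  · rintro (⟨i, rfl⟩ | ⟨i, rfl⟩ | ⟨i, rfl⟩ | ⟨i, rfl⟩)
    · exact ⟨i, Or.inl rfl⟩
    · exact ⟨i, Or.inr (Or.inl (jf_jj (hz i)))⟩
    · exact ⟨i, Or.inr (Or.inr (Or.inl (deriv_jf (hz i))))⟩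
    · exact ⟨i, Or.inr (Or.inr (Or.inr (deriv2_jf (hz i))))⟩

theorem JE_comp {m : ℕ} (hm : 0 < m) (π : Fin n → Fin m) (x : Fin m → ℂ) :
    JE (fun i => x (π i)) ⊆ (Finset.univ.biUnion fun i : Fin m =>
      ({x i, jj (x i), deriv jj (x i), deriv (deriv jj) (x i)} : Finset ℂ)) := by
  classical
  rintro w ⟨i, hi⟩
  rw [Finset.mem_coe, Finset.mem_biUnion]
  refine ⟨π i, Finset.mem_univ _, ?_⟩
  simpa using hi

theorem rank_comp {F : IntermediateField ℚ ℂ} {m : ℕ} (hm : 0 < m) (π : Fin n → Fin m)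
    (x : Fin m → ℂ) : (MK F).eRk (JE (fun i => x (π i))) ≤ ((4 * m : ℕ) : ℕ∞) := by
  classical
  refine ((MK F).eRk_mono (JE_comp hm π x)).trans ((Matroid.eRk_le_encard _ _).trans ?_)
  rw [Set.encard_coe_eq_coe_finsetCard]
  refine Nat.cast_le.2 (Finset.card_biUnion_le.trans ?_)
  refine (Finset.sum_le_card_nsmul _ _ 4 (fun i _ => Finset.card_le_four)).trans ?_
  rw [Finset.card_univ, Fintype.card_fin, smul_eq_mul, mul_comm]

/-- **The exact dimension** -/
theorem dim_exact {F : IntermediateField ℚ ℂ} (hF : (F : Set ℂ).Countable) (n d : ℕ) :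
    dimH {z : Fin n → ℂ | z ∈ HU n ∧ (MK F).eRk (JE z) < (d : ℕ∞)} =
      ((2 * min n ((d - 1) / 4) : ℕ) : ENNReal) ∧
    (d ≤ 4 → {z : Fin n → ℂ | z ∈ HU n ∧ (MK F).eRk (JE z) < (d : ℕ∞)}.Countable) := by
  classical
  have hset : {z : Fin n → ℂ | z ∈ HU n ∧ (MK F).eRk (JE z) < (d : ℕ∞)} =
      {z : Fin n → ℂ | z ∈ HU n ∧ (MK F).eRk (JN z) < (d : ℕ∞)} := by
    ext z
    refine and_congr_right (fun hz => ?_)
    rw [JE_eq hz]
  obtain ⟨h1, h2⟩ := dim_J hF n d
  refine ⟨le_antisymm ?_ ?_, fun hd => hset ▸ h2 hd⟩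
  · rcases le_total n ((d - 1) / 4) with h | h
    · rw [min_eq_left h]
      refine (dimH_mono (Set.subset_univ _)).trans ?_
      rw [Real.dimH_univ_eq_finrank]
      have h3 : finrank ℝ (Fin n → ℂ) = 2 * n := by
        rw [Module.finrank_pi_fintype, Finset.sum_const, Complex.finrank_real_complex,
          Finset.card_univ, Fintype.card_fin, smul_eq_mul, mul_comm]
      rw [h3]
    · rw [min_eq_right h, hset]
      exact h1
  · obtain ⟨m, hm⟩ : ∃ m, m = min n ((d - 1) / 4) := ⟨_, rfl⟩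
    rw [← hm]
    rcases Nat.eq_zero_or_pos m with rfl | hm0
    · simp
    have hmn : m ≤ n := by omega
    have hmd : 4 * m < d := by omega
    let p : (Fin n → ℂ) → (Fin m → ℂ) := fun z i => z (Fin.castLE hmn i)
    have hp : LipschitzWith 1 p := by
      refine LipschitzWith.of_dist_le_mul (fun x y => ?_)
      rw [NNReal.coe_one, one_mul, dist_pi_le_iff dist_nonneg]
      exact fun i => dist_le_pi_dist x y _
    have hsub : HU m ⊆ p '' {z : Fin n → ℂ | z ∈ HU n ∧ (MK F).eRk (JE z) < (d : ℕ∞)} := by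
      intro x hx
      let π : Fin n → Fin m := fun i => if h : (i : ℕ) < m then ⟨i, h⟩ else ⟨0, hm0⟩
      refine ⟨fun i => x (π i), ⟨fun i => hx (π i), ?_⟩, ?_⟩
      · refine (rank_comp hm0 π x).trans_lt ?_
        exact_mod_cast hmd
      · funext i
        have h3 : π (Fin.castLE hmn i) = i := by
          change (if h : ((Fin.castLE hmn i : Fin n) : ℕ) < m then (⟨_, h⟩ : Fin m) else ⟨0, hm0⟩) = i
          rw [dif_pos (by simp)]
          exact Fin.ext (by simp)
        change x (π (Fin.castLE hmn i)) = x i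
        rw [h3]
    refine le_trans ?_ ((dimH_mono hsub).trans (hp.dimH_image_le _))
    rw [Real.dimH_of_nonempty_interior]
    · have h3 : finrank ℝ (Fin m → ℂ) = 2 * m := by
        rw [Module.finrank_pi_fintype, Finset.sum_const, Complex.finrank_real_complex,
          Finset.card_univ, Fintype.card_fin, smul_eq_mul, mul_comm]
      rw [h3]
    · rw [isOpen_HU.interior_eq]
      exact ⟨fun _ => Complex.I, fun _ => by simp⟩

end Pool.Agent.H39M
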